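import Mathlib
import Pool.Agent.N673.Flat

set_option autoImplicit false

/-!
# MP_69dca4_nt, Q1: the Liouville function is not flat from below

Let `P_N(z) = ∑_{1 ≤ n ≤ N} λ(n) z^(n-1)`, so that `|S_N(θ)| = |P_N(e(θ))|`. If `|P_N| > 1` on the unit
circle for all `N₀ ≤ N < N₁`, then by Rouché's theorem all the `P_N` with `N₀ ≤ N ≤ N₁` have the same
number `w < N₀` of zeros in the open unit disc. By Jensen's formula a polynomial with coefficients
of absolute value at most one and `w` zeros in the open unit disc has Mahler measure at most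
`(e (w + 1))^(1/2)`. So `min |P_{N₁}| ≤ (e N₀)^(1/2)`.
-/

open Filter

namespace Pool.Agent.Results.MP_69dca4_nt.NotFlatFromBelow

/-- The Liouville function `λ(n) = (-1)^Ω(n)`. -/
def lam (n : ℕ) : ℤ := (-1) ^ ArithmeticFunction.cardFactors n

/-- `S_N(θ) = ∑_{n=1}^N λ(n) e^{2πinθ}`. -/
noncomputable def S (N : ℕ) (θ : ℝ) : ℂ :=
  ∑ n ∈ Finset.Icc 1 N, (lam n : ℂ) * Complex.exp (2 * Real.pi * Complex.I * n * θ)

/-- `m(N) = min_θ |S_N(θ)|`. -/
noncomputable def m (N : ℕ) : ℝ := ⨅ θ : ℝ, ‖S N θ‖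

theorem S_eq (N : ℕ) (θ : ℝ) :
    S N θ = Complex.exp (2 * Real.pi * Complex.I * θ) *
      (Pool.Agent.N673.Flat.P (fun n => (lam n : ℂ)) N).eval
        (Complex.exp (2 * Real.pi * Complex.I * θ)) := by
  unfold S Pool.Agent.N673.Flat.P
  have hI : Finset.Icc 1 N = Finset.Ico (0 + 1) (N + 1) := by
    ext i
    simp only [Finset.mem_Icc, Finset.mem_Ico]
    omega
  rw [hI, Polynomial.eval_finsetSum, Finset.mul_sum, Finset.range_eq_Ico,
    ← Finset.sum_Ico_add' (fun n => (lam n : ℂ) * Complex.exp (2 * Real.pi * Complex.I * n * θ)) 0 N 1]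
  apply Finset.sum_congr rfl
  intro n _
  simp only [Polynomial.eval_mul, Polynomial.eval_C, Polynomial.eval_pow, Polynomial.eval_X]
  rw [← Complex.exp_nat_mul, mul_left_comm, ← Complex.exp_add]
  congr 2
  push_cast
  ring

theorem norm_S (N : ℕ) (θ : ℝ) :
    ‖S N θ‖ = ‖(Pool.Agent.N673.Flat.P (fun n => (lam n : ℂ)) N).eval
        (Complex.exp (2 * Real.pi * Complex.I * θ))‖ := by
  rw [S_eq, norm_mul]
  have : ‖Complex.exp (2 * Real.pi * Complex.I * θ)‖ = 1 := by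
    have h : (2 * Real.pi * Complex.I * θ : ℂ) = ((2 * Real.pi * θ : ℝ) : ℂ) * Complex.I := by
      push_cast
      ring
    rw [h, Complex.norm_exp_ofReal_mul_I]
  rw [this, one_mul]

theorem bdd (N : ℕ) : BddBelow (Set.range fun θ : ℝ => ‖S N θ‖) :=
  ⟨0, by rintro _ ⟨θ, rfl⟩; exact norm_nonneg _⟩

theorem m_nonneg (N : ℕ) : 0 ≤ m N := Real.iInf_nonneg fun _ => norm_nonneg _

theorem lam_norm (n : ℕ) : ‖(lam n : ℂ)‖ ≤ 1 := by
  unfold lam
  simp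

theorem m_le (N : ℕ) (z : ℂ) (hz : ‖z‖ = 1) :
    m N ≤ ‖(Pool.Agent.N673.Flat.P (fun n => (lam n : ℂ)) N).eval z‖ := by
  obtain ⟨t, ht⟩ := Complex.norm_eq_one_iff z |>.1 hz
  have h := ciInf_le (bdd N) (t / (2 * Real.pi))
  have e : (2 * Real.pi * Complex.I * ((t / (2 * Real.pi) : ℝ) : ℂ) : ℂ) = t * Complex.I := by
    push_cast
    have : (Real.pi : ℂ) ≠ 0 := by exact_mod_cast Real.pi_ne_zero
    field_simp
  rw [norm_S, e, ht] at h
  exact h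

/-- the main inequality for the Liouville function -/
theorem core (N₀ N₁ : ℕ) (h0 : 1 ≤ N₀) (h01 : N₀ ≤ N₁) (h : ∀ N, N₀ ≤ N → N < N₁ → 1 < m N) :
    m N₁ ≤ √(Real.exp 1 * N₀) :=
  Pool.Agent.N673.Flat.main (fun n => (lam n : ℂ)) lam_norm N₀ N₁ h0 h01
    (fun N h1 h2 z hz => (h N h1 h2).trans_le (m_le N z hz)) (m N₁) (fun z hz => m_le N₁ z hz)

theorem window (c : ℝ) (hc : 0 < c) (N₀ : ℕ) (h0 : 1 / c ^ 2 < N₀) :
    ∃ N : ℕ, N₀ ≤ N ∧ (N : ℝ) ≤ (1 + Real.exp 1 / c ^ 2) * N₀ ∧ m N < c * √N := by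
  have hc2 : 0 < c ^ 2 := by positivity
  have hN0 : (0 : ℝ) < N₀ := lt_trans (by positivity) h0
  have hN1 : 1 ≤ N₀ := by exact_mod_cast hN0
  have hN1r : (1 : ℝ) ≤ N₀ := by exact_mod_cast hN1
  have he := Real.exp_pos 1
  by_contra hcon
  push Not at hcon
  set N₁ : ℕ := max N₀ (⌊Real.exp 1 / c ^ 2 * N₀⌋₊ + 1) with hN₁
  have hle : ((⌊Real.exp 1 / c ^ 2 * N₀⌋₊ : ℕ) : ℝ) ≤ Real.exp 1 / c ^ 2 * N₀ :=
    Nat.floor_le (by positivity)
  have hup : (N₁ : ℝ) ≤ (1 + Real.exp 1 / c ^ 2) * N₀ := by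
    rw [hN₁, Nat.cast_max]
    apply max_le
    · have : 0 ≤ Real.exp 1 / c ^ 2 * N₀ := by positivity
      linarith
    · push_cast
      linarith
  have h1c : 1 < c * √N₀ := by
    have h1 : 1 < c ^ 2 * N₀ := by
      rw [div_lt_iff₀ hc2] at h0
      linarith
    have h2 : (c * √N₀) ^ 2 = c ^ 2 * N₀ := by rw [mul_pow, Real.sq_sqrt hN0.le]
    have h3 : 0 ≤ c * √N₀ := by positivity
    nlinarith
  have hbig : ∀ N : ℕ, N₀ ≤ N → N ≤ N₁ → c * √N ≤ m N := by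
    intro N a b
    refine hcon N a (le_trans ?_ hup)
    exact_mod_cast b
  have h2 := core N₀ N₁ hN1 (le_max_left _ _) (fun N a b => by
    refine lt_of_lt_of_le ?_ (hbig N a b.le)
    refine h1c.trans_le (mul_le_mul_of_nonneg_left (Real.sqrt_le_sqrt ?_) hc.le)
    exact_mod_cast a)
  have h3 := (hbig N₁ (le_max_left _ _) le_rfl).trans h2
  have h4 : Real.exp 1 / c ^ 2 * N₀ < N₁ := by
    have h5 := Nat.lt_floor_add_one (Real.exp 1 / c ^ 2 * N₀)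
    refine h5.trans_le ?_
    rw [hN₁, Nat.cast_max]
    push_cast
    exact le_max_right _ _
  have h6 : Real.exp 1 * N₀ < c ^ 2 * N₁ := by
    rw [div_mul_eq_mul_div, div_lt_iff₀ hc2] at h4
    linarith
  have h7 : √(Real.exp 1 * N₀) < c * √N₁ := by
    rw [Real.sqrt_lt' (by positivity), mul_pow, Real.sq_sqrt (Nat.cast_nonneg _)]
    exact h6
  linarith

/-- **Q1 of MP_69dca4_nt: the Liouville function is not flat from below.**

(1) There are no `c > 0` and `N₀` with `m(N) ≥ c √N` for all `N ≥ N₀`; equivalently the limit inferior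
of `m(N) / √N` is zero.
(2) For every `c > 0` and every `N₀ > 1 / c²` there is `N` with `N₀ ≤ N ≤ (1 + e / c²) N₀` and
`m(N) < c √N`.
(3) For all `1 ≤ N₀ ≤ N₁`, either `m(N) ≤ 1` for some `N₀ ≤ N < N₁`, or `m(N₁) ≤ √(e N₀)`. -/
theorem result :
    ((¬ ∃ c : ℝ, 0 < c ∧ ∃ N₀ : ℕ, ∀ N : ℕ, N₀ ≤ N → c * √N ≤ m N) ∧
      liminf (fun N : ℕ => m N / √N) atTop = 0) ∧
    (∀ c : ℝ, 0 < c → ∀ N₀ : ℕ, 1 / c ^ 2 < N₀ →
      ∃ N : ℕ, N₀ ≤ N ∧ (N : ℝ) ≤ (1 + Real.exp 1 / c ^ 2) * N₀ ∧ m N < c * √N) ∧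
    (∀ N₀ N₁ : ℕ, 1 ≤ N₀ → N₀ ≤ N₁ →
      (∃ N : ℕ, N₀ ≤ N ∧ N < N₁ ∧ m N ≤ 1) ∨ m N₁ ≤ √(Real.exp 1 * N₀)) := by
  have key : ∀ c : ℝ, 0 < c → ∀ M : ℕ, ∃ N : ℕ, M ≤ N ∧ m N < c * √N := by
    intro c hc M
    obtain ⟨K, hK⟩ := exists_nat_gt (1 / c ^ 2)
    obtain ⟨N, h1, -, h3⟩ := window c hc (max K M) (hK.trans_le (by exact_mod_cast le_max_left K M))
    exact ⟨N, (le_max_right K M).trans h1, h3⟩
  refine ⟨⟨?_, ?_⟩, window, ?_⟩
  · rintro ⟨c, hc, N₀, h⟩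
    obtain ⟨N, h1, h2⟩ := key c hc N₀
    exact absurd (h N h1) (not_le.2 h2)
  · have hfreq : ∀ c : ℝ, 0 < c → ∃ᶠ N : ℕ in atTop, m N / √N ≤ c := by
      intro c hc
      rw [frequently_atTop]
      intro M
      obtain ⟨N, h1, h2⟩ := key c hc (max M 1)
      refine ⟨N, (le_max_left _ _).trans h1, ?_⟩
      have hN : (0 : ℝ) < N := by
        have : 1 ≤ N := (le_max_right M 1).trans h1
        exact_mod_cast this
      rw [div_le_iff₀ (Real.sqrt_pos.2 hN)]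
      exact h2.le
    have hnn : ∀ N : ℕ, 0 ≤ m N / √N := fun N => div_nonneg (m_nonneg N) (Real.sqrt_nonneg _)
    have hb : IsBoundedUnder (· ≥ ·) atTop (fun N : ℕ => m N / √N) :=
      isBoundedUnder_of ⟨0, hnn⟩
    apply le_antisymm
    · apply le_of_forall_pos_le_add
      intro c hc
      rw [zero_add]
      exact liminf_le_of_frequently_le (hfreq c hc) hb
    · exact le_liminf_of_le (IsCoboundedUnder.of_frequently_le (hfreq 1 one_pos))
        (Eventually.of_forall hnn)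
  · intro N₀ N₁ h0 h01
    by_cases h : ∃ N : ℕ, N₀ ≤ N ∧ N < N₁ ∧ m N ≤ 1
    · exact Or.inl h
    · right
      push Not at h
      exact core N₀ N₁ h0 h01 h

end Pool.Agent.Results.MP_69dca4_nt.NotFlatFromBelow
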